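import Pool.Agent.Q19.DB.Final

/-!
# `Δ_β` is homotopy equivalent to the `(s-d)`-fold suspension of `Γ_β`
-/

open Set ContinuousMap

namespace Pool.Agent.Results.MP_a2a0e0_co.SuspensionTheorem

open Pool.Agent.Q19.DB

variable {r n : ℕ} (Φ : Matrix (Fin r) (Fin n) ℤ)

theorem span_eq [Fintype (CF Φ)] :
    LinearMap.range (Fintype.linearCombination ℝ (gen Φ)) = Submodule.span ℝ (cone Φ) := by
  rw [Fintype.range_linearCombination]
  apply le_antisymm
  · apply Submodule.span_mono
    rintro _ ⟨j, rfl⟩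
    exact j.2.1.1
  · rw [Submodule.span_le]
    intro x hx
    obtain ⟨y, _, rfl⟩ := CF_generates Φ x hx
    exact Submodule.sum_mem _ fun j _ => Submodule.smul_mem _ _ (Submodule.subset_span ⟨j, rfl⟩)

theorem finrank_ker [Fintype (CF Φ)] :
    Module.finrank ℝ (Submodule.span ℝ (cone Φ)) +
      Module.finrank ℝ (LinearMap.ker (Fintype.linearCombination ℝ (gen Φ))) =
      (CF Φ).ncard := by
  rw [← span_eq, LinearMap.finrank_range_add_finrank_ker, Module.finrank_fintype_fun_eq_card,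
    ← Nat.card_coe_set_eq, Nat.card_eq_fintype_card]

theorem ker_iso [Fintype (CF Φ)] {E : Type*} [AddCommGroup E] [Module ℝ E] [TopologicalSpace E]
    [IsTopologicalAddGroup E] [ContinuousSMul ℝ E] (G' : Set E) :
    Nonempty (Jn G' (K (gen Φ)) ≃ₕ Jn G' (Set.univ : Set
      (Fin ((CF Φ).ncard - Module.finrank ℝ (Submodule.span ℝ (cone Φ))) → ℝ))) := by
  set m := (CF Φ).ncard - Module.finrank ℝ (Submodule.span ℝ (cone Φ)) with hm
  let L := Fintype.linearCombination ℝ (gen Φ)
  have h1 : Module.finrank ℝ (LinearMap.ker L) = Module.finrank ℝ (Fin m → ℝ) := by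
    have := finrank_ker Φ
    rw [Module.finrank_fin_fun]
    show Module.finrank ℝ (LinearMap.ker (Fintype.linearCombination ℝ (gen Φ))) = m
    omega
  let e : LinearMap.ker L ≃ₗ[ℝ] (Fin m → ℝ) := LinearEquiv.ofFinrankEq _ _ h1
  obtain ⟨l, hl⟩ := LinearMap.exists_extend (e : LinearMap.ker L →ₗ[ℝ] (Fin m → ℝ))
  have hl' : ∀ k : LinearMap.ker L, l k.1 = e k := by
    intro k
    have := LinearMap.congr_fun hl k
    simpa using this
  have hK : ∀ k : CF Φ → ℝ, k ∈ K (gen Φ) ↔ k ∈ LinearMap.ker L := by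
    intro k
    rw [LinearMap.mem_ker]
    rfl
  apply step_five G' (K (gen Φ)) l ((LinearMap.ker L).subtype ∘ₗ (e.symm : _ →ₗ[ℝ] _))
  · exact l.continuous_of_finiteDimensional
  · exact LinearMap.continuous_of_finiteDimensional _
  · intro u
    rw [hK]
    exact (e.symm u).2
  · intro u
    show l (e.symm u).1 = u
    rw [hl', LinearEquiv.apply_symm_apply]
  · intro k hk
    show (e.symm (l k)).1 = k
    rw [hK] at hk
    have h2 : l k = e ⟨k, hk⟩ := hl' ⟨k, hk⟩
    rw [h2, LinearEquiv.symm_apply_apply]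

/-- **Theorem.** For every `Φ`, `α` and every `β` in the coset, every cross-section polytope `P`
of the cone (assumed nonzero) and every polytope `Q` with an order reversing bijection `D` from
the faces of `P` to the faces of `Q`: `CF_Φ` is finite, its cardinality `s` is at least the
dimension `d` of the cone, and `Δ_β` is homotopy equivalent to the `(s-d)`-fold suspension of
`Γ_β`. -/
theorem result {r n k : ℕ} (Φ : Matrix (Fin r) (Fin n) ℤ) (α : Fin r → ℤ) (β : Fin n → ℤ)
    (hβ : β ∈ Coset Φ α) (hC : cone Φ ≠ {0}) (P : Set (Fin n → ℝ)) (hP : IsCrossSection Φ P)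
    (S : Finset (Fin k → ℝ)) (Q : Set (Fin k → ℝ)) (hQ : Q = convexHull ℝ (S : Set (Fin k → ℝ)))
    (D : Face P ≃o (Face Q)ᵒᵈ) :
    (CF Φ).Finite ∧ Module.finrank ℝ (Submodule.span ℝ (cone Φ)) ≤ (CF Φ).ncard ∧
      Nonempty (Realization (Delta Φ β) ≃ₕ
        (Sus^[(CF Φ).ncard - Module.finrank ℝ (Submodule.span ℝ (cone Φ))]
          (TopCat.of (Gam D β)) : TopCat.{0})) := by
  classical
  have : Fintype (CF Φ) := (CF_finite Φ).fintype
  refine ⟨CF_finite Φ, by have := finrank_ker Φ; omega, ?_⟩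
  obtain ⟨g, hg, hPe⟩ := cross Φ hC hP
  have key : Nonempty (Kh (gen Φ) (Finset.univ.filter (fun i => β i < 0)) ≃ₕ
      Jn (Gh (Gam D β)) (K (gen Φ))) ∧ IsCompact (Gam D β) := by
    rcases Finset.eq_empty_or_nonempty (Finset.univ.filter (fun i => β i < 0)) with hN | hN
    · have h1 : ∀ i, ¬ β i < 0 := by
        intro i hi
        have : i ∈ Finset.univ.filter (fun i => β i < 0) := by simp [hi]
        rw [hN] at this
        exact absurd this (Finset.notMem_empty i)
      have h2 : Gam D β = Q := by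
        apply Set.Subset.antisymm
        · rintro y ⟨F, _, hy⟩
          exact (dF_exposed D F).subset hy
        · intro y hy
          refine ⟨⟨∅, isExposed_empty⟩, fun i hi => absurd hi (h1 i), ?_⟩
          exact (dF_bot D ⟨∅, isExposed_empty⟩ rfl).ge hy
      have hQne : Q.Nonempty := by
        by_contra hcon
        rw [Set.not_nonempty_iff_eq_empty] at hcon
        obtain ⟨x, hx, hx0⟩ := cone_ne Φ hC
        have h1 := scale_mem Φ hg hPe hx hx0
        have h2 : dF D ⟨∅, isExposed_empty⟩ = Q := dF_bot D _ rfl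
        have h3 : dF D ⟨P, IsExposed.refl P⟩ = ∅ := dF_top D _ rfl
        have h4 : (∅ : Set (Fin n → ℝ)) = P := dF_inj D (F := ⟨∅, isExposed_empty⟩)
          (F' := ⟨P, IsExposed.refl P⟩) ((h2.trans hcon).trans h3.symm)
        exact (h4.symm ▸ h1 : _ ∈ (∅ : Set (Fin n → ℝ)))
      rw [hN, h2]
      refine ⟨mid_empty Φ hC Q (by rw [hQ]; exact convex_convexHull ℝ _) hQne, ?_⟩
      rw [hQ]; exact poly_compact S
    · exact mid_nonempty Φ hC hg hPe S Q hQ D β _ (fun i => by simp) hN
        (fun i hi => neg_cov Φ α β hβ i (Finset.mem_filter.mp hi).2)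
  obtain ⟨key1, hcomp⟩ := key
  obtain ⟨_, ⟨eN⟩⟩ := Nm_sus (Gam D β) hcomp
    ((CF Φ).ncard - Module.finrank ℝ (Submodule.span ℝ (cone Φ)))
  refine heq_trans (real_heq Φ β) (heq_trans key1 (heq_trans (ker_iso Φ _)
    (heq_trans (heq_symm (step_six (Gam D β) _)) ⟨eN.toHomotopyEquiv⟩)))

end Pool.Agent.Results.MP_a2a0e0_co.SuspensionTheorem
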